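import Mathlib

namespace Pool.Agent.Results.MP_db9acb_an.UnboundedExist

/-- `x n` is the term with index `n - 2` of the problem. -/
def IsSol (α C : ℝ) (x : ℕ → ℝ) : Prop :=
  0 ≤ x 0 ∧ 0 ≤ x 1 ∧ 0 ≤ x 2 ∧ (∀ n, 0 < C * x (n + 1) + x n) ∧
    ∀ n, x (n + 3) = (α + x (n + 2)) / (C * x (n + 1) + x n)

/-- six consecutive steps of the recurrence with `α = 1`, `C = 1/100` -/
structure Six (w x H x2 x3 x4 x5 x6 x7 : ℝ) : Prop where
  w0 : 0 ≤ w
  p2 : 0 < x2
  p3 : 0 < x3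
  p4 : 0 < x4
  p5 : 0 < x5
  p6 : 0 < x6
  p7 : 0 < x7
  e2 : x2 * (x / 100 + w) = 1 + H
  e3 : x3 * (H / 100 + x) = 1 + x2
  e4 : x4 * (x2 / 100 + H) = 1 + x3
  e5 : x5 * (x3 / 100 + x2) = 1 + x4
  e6 : x6 * (x4 / 100 + x3) = 1 + x5
  e7 : x7 * (x5 / 100 + x4) = 1 + x6

variable {w x H x2 x3 x4 x5 x6 x7 : ℝ}

theorem Six.bounds (s : Six w x H x2 x3 x4 x5 x6 x7) (hx : 1 ≤ x) (hxH : 50 * x ≤ H)
    (hH : 10 ^ 8 ≤ H) (hwH : w * H ≤ 100 * (1 + x)) :
    x2 * x ≤ 100 * (1 + H) ∧ 99 * H ≤ x2 * x ∧ x3 * x ≤ 10 ^ 4 ∧ x4 ≤ 1 / 1000 ∧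
      x / 10 ^ 4 ≤ x6 ∧ x5 * H ≤ (1 + x4) * (x / 100 + w) ∧ x4 * H ≤ 1 + x3 := by
  obtain ⟨w0, p2, p3, p4, p5, p6, p7, e2, e3, e4, e5, e6, e7⟩ := s
  have hH0 : 0 < H := by linarith
  have hx0 : 0 < x := by linarith
  have a1 : x2 * x ≤ 100 * (1 + H) := by
    have := mul_nonneg p2.le w0
    nlinarith
  have a2 : 99 * H ≤ x2 * x := by
    have hw : w ≤ x / 5000 := by
      have h1 : w * 10 ^ 8 ≤ w * H := mul_le_mul_of_nonneg_left hH w0
      linarith
    have h2 : x2 * w ≤ x2 * (x / 5000) := mul_le_mul_of_nonneg_left hw p2.le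
    nlinarith
  have a3' : x3 * x * (H + 100 * x) ≤ 100 * (x + 100 + 100 * H) := by
    have : x3 * x * (H + 100 * x) = 100 * (x + x2 * x) := by
      have : x3 * (H + 100 * x) = 100 * (1 + x2) := by linarith
      calc x3 * x * (H + 100 * x) = (x3 * (H + 100 * x)) * x := by ring
        _ = 100 * (1 + x2) * x := by rw [this]
        _ = _ := by ring
    rw [this]
    linarith
  have hHx : 0 < H + 100 * x := by positivity
  have a3 : x3 * x ≤ 10 ^ 4 := by
    by_contra hlt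
    push Not at hlt
    have : 10 ^ 4 * (H + 100 * x) < x3 * x * (H + 100 * x) := mul_lt_mul_of_pos_right hlt hHx
    linarith
  have a4 : x4 * H ≤ 1 + x3 := by
    have := mul_pos p4 p2
    nlinarith
  have a4x : x4 * H * x ≤ x + 10 ^ 4 := by
    have := mul_le_mul_of_nonneg_right a4 hx0.le
    linarith
  have a5 : x4 ≤ 1 / 1000 := by
    have h1 : x3 ≤ 10 ^ 4 := by
      have : x3 * 1 ≤ x3 * x := mul_le_mul_of_nonneg_left hx p3.le
      linarith
    have h2 : x4 * 10 ^ 8 ≤ x4 * H := mul_le_mul_of_nonneg_left hH p4.le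
    linarith
  have az : (x4 / 100 + x3) * x ≤ 10 ^ 4 := by
    by_contra hlt
    push Not at hlt
    have h1 : 10 ^ 4 * (H + 100 * x) < (x4 / 100 + x3) * x * (H + 100 * x) :=
      mul_lt_mul_of_pos_right hlt hHx
    have h2 : x4 * x * (H + 100 * x) ≤ x4 * x * (3 * H) := by
      apply mul_le_mul_of_nonneg_left _ (by positivity)
      linarith
    have h3 : (x4 / 100 + x3) * x * (H + 100 * x) =
        x4 * x * (H + 100 * x) / 100 + x3 * x * (H + 100 * x) := by ring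
    have h4 : x4 * x * (3 * H) = 3 * (x4 * H * x) := by ring
    linarith
  have a6 : x / 10 ^ 4 ≤ x6 := by
    have h1 : x6 * (x4 / 100 + x3) * x ≤ x6 * 10 ^ 4 := by
      rw [mul_assoc]
      exact mul_le_mul_of_nonneg_left az p6.le
    rw [e6] at h1
    have h2 := mul_pos p5 hx0
    linarith
  have a7 : x5 * H ≤ (1 + x4) * (x / 100 + w) := by
    have h1 : x5 * x2 ≤ 1 + x4 := by
      have := mul_pos p5 p3
      linarith
    have h2 : 0 < x / 100 + w := by positivity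
    have h3 := mul_le_mul_of_nonneg_right h1 h2.le
    have h4 : x5 * x2 * (x / 100 + w) = x5 * (1 + H) := by rw [mul_assoc, e2]
    rw [h4] at h3
    linarith
  exact ⟨a1, a2, a3, a5, a6, a7, a4⟩

/-- lower bound for the new large value -/
theorem Six.key (s : Six w x H x2 x3 x4 x5 x6 x7) (hx : 1 ≤ x) (hxH : 50 * x ≤ H)
    (hH : 10 ^ 8 ≤ H) (hwH : w * H ≤ 100 * (1 + x)) {t : ℝ} (ht : t = x / 10 ^ 4) :
    H * (1 + t) ≤ x7 * (t + 1 + 1 / t + 20001 * (1 + t) / H) := by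
  obtain ⟨a1, a2, a3, a5, a6, a7, a4⟩ := s.bounds hx hxH hH hwH
  obtain ⟨w0, p2, p3, p4, p5, p6, p7, e2, e3, e4, e5, e6, e7⟩ := s
  have hH0 : 0 < H := by linarith
  have hx0 : 0 < x := by linarith
  have ht0 : 0 < t := by rw [ht]; positivity
  have b1 : 1 + t ≤ x7 * (x5 / 100 + x4) := by rw [e7, ht]; linarith
  have hw : w ≤ 100 * (1 + x) / H := by rw [le_div_iff₀ hH0]; exact hwH
  have b3 : x3 ≤ 1 / t := by
    rw [ht, one_div_div, le_div_iff₀ hx0]; exact a3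
  have b4 : x4 * H ≤ 1 + 1 / t := by linarith
  have b5 : x5 / 100 * H ≤ (1 + x4) * (t + (1 + x) / H) := by
    have h1 : (1 + x4) * (x / 100 + w) ≤ (1 + x4) * (x / 100 + 100 * (1 + x) / H) := by
      apply mul_le_mul_of_nonneg_left _ (by linarith)
      linarith
    have h2 : (1 + x4) * (t + (1 + x) / H) = (1 + x4) * (x / 100 + 100 * (1 + x) / H) / 100 := by
      rw [ht]; ring
    rw [h2]
    linarith
  have b6 : (1 + x4) * (t + (1 + x) / H) ≤ t + 20001 * (1 + t) / H := by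
    have h1 : x4 * t * H ≤ 1 + t := by
      have := mul_le_mul_of_nonneg_right b4 ht0.le
      have h2 : (1 + 1 / t) * t = t + 1 := by field_simp
      rw [h2] at this
      linarith
    have h3 : x4 * t ≤ (1 + t) / H := by rw [le_div_iff₀ hH0]; exact h1
    have h4 : 1 + x ≤ 10 ^ 4 * (1 + t) := by rw [ht]; linarith
    have h5 : (1 + x) / H ≤ 10 ^ 4 * (1 + t) / H := div_le_div_of_nonneg_right h4 hH0.le
    have h6 : 0 < (1 + x) / H := by positivity
    have h7 : x4 * ((1 + x) / H) ≤ 1 * ((1 + x) / H) :=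
      mul_le_mul_of_nonneg_right (by linarith) h6.le
    have h8 : 20001 * (1 + t) / H = (1 + t) / H + 2 * (10 ^ 4 * (1 + t) / H) := by ring
    rw [h8]
    linarith
  have b7 : (x5 / 100 + x4) * H ≤ t + 1 + 1 / t + 20001 * (1 + t) / H := by linarith
  calc H * (1 + t) ≤ H * (x7 * (x5 / 100 + x4)) := mul_le_mul_of_nonneg_left b1 hH0.le
    _ = x7 * ((x5 / 100 + x4) * H) := by ring
    _ ≤ _ := mul_le_mul_of_nonneg_left b7 p7.le

/-- first phase: the middle value is still large -/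
theorem Six.phaseA (s : Six w x H x2 x3 x4 x5 x6 x7) (hx : 10 ^ 4 ≤ x) (hxH : 50 * x ≤ H)
    (hH : 10 ^ 8 ≤ H) (hwH : w * H ≤ 100 * (1 + x)) :
    1 ≤ x6 ∧ x6 ≤ x / 1000 ∧ H ≤ x7 * (1 + 10 ^ 4 / x) := by
  have hx1 : 1 ≤ x := by linarith
  obtain ⟨a1, a2, a3, a5, a6, a7, a4⟩ := s.bounds hx1 hxH hH hwH
  have hk := s.key hx1 hxH hH hwH (t := x / 10 ^ 4) rfl
  obtain ⟨w0, p2, p3, p4, p5, p6, p7, e2, e3, e4, e5, e6, e7⟩ := s
  have hH0 : 0 < H := by linarith
  have hx0 : 0 < x := by linarith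
  refine ⟨by linarith, ?_, ?_⟩
  · have h1 : 3300 ≤ x3 * x := by
      have h2 : x2 ≤ x3 * (3 * H / 100) := by
        have : x3 * (H / 100 + x) ≤ x3 * (3 * H / 100) := by
          apply mul_le_mul_of_nonneg_left _ p3.le
          linarith
        linarith
      have h3 : x2 * x ≤ x3 * (3 * H / 100) * x := mul_le_mul_of_nonneg_right h2 hx0.le
      by_contra hlt
      push Not at hlt
      have h4 : x3 * x * H < 3300 * H := mul_lt_mul_of_pos_right hlt hH0
      have h5 : x3 * (3 * H / 100) * x = 3 / 100 * (x3 * x * H) := by ring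
      linarith
    have h6 : x5 ≤ 1 := by
      have hw : w ≤ x := by
        have h1 : w * 10 ^ 8 ≤ w * H := mul_le_mul_of_nonneg_left hH w0
        linarith
      have h7 : (1 + x4) * (x / 100 + w) ≤ 2 * (2 * x) := by
        apply mul_le_mul <;> linarith
      have h8 : x5 * H ≤ 1 * H := by linarith
      exact le_of_mul_le_mul_right h8 hH0
    have h9 : x6 * x3 ≤ 2 := by
      have := mul_pos p6 p4
      linarith
    have h10 : x6 * (x3 * x) ≤ 2 * x := by
      have := mul_le_mul_of_nonneg_right h9 hx0.le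
      linarith
    have h11 : x6 * 3300 ≤ x6 * (x3 * x) := mul_le_mul_of_nonneg_left h1 p6.le
    linarith
  · obtain ⟨t, ht⟩ : ∃ t, t = x / 10 ^ 4 := ⟨_, rfl⟩
    rw [← ht] at hk
    have ht1 : 1 ≤ t := by rw [ht]; linarith
    have ht0 : 0 < t := by linarith
    have h1 : 20001 * (1 + t) / H ≤ 1 := by
      rw [div_le_one hH0]
      have : t ≤ H / 500000 := by rw [ht]; linarith
      linarith
    have h2 : t + 1 + 1 / t + 20001 * (1 + t) / H ≤ (1 + t) * (1 + 1 / t) := by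
      have : (1 + t) * (1 + 1 / t) = t + 2 + 1 / t := by field_simp; ring
      rw [this]; linarith
    have h3 : H * (1 + t) ≤ x7 * (1 + 1 / t) * (1 + t) := by
      have := mul_le_mul_of_nonneg_left h2 p7.le
      linarith
    have h4 := le_of_mul_le_mul_right h3 (by linarith)
    have h5 : 1 / t = 10 ^ 4 / x := by rw [ht, one_div_div]
    rw [← h5]
    exact h4

/-- second phase: the middle value is of order between `1` and `10 ^ 4`; one more step gives the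
next frame. -/
theorem Six.phaseB (s : Six w x H x2 x3 x4 x5 x6 x7) (hx : 1 ≤ x) (hx4 : x ≤ 10 ^ 4)
    (hH : 10 ^ 9 ≤ H) (hwH : w * H ≤ 100 * (1 + x)) {x8 : ℝ} (p8 : 0 < x8)
    (e8 : x8 * (x6 / 100 + x5) = 1 + x7) :
    10 ^ 4 ≤ x7 ∧ 50 * x7 ≤ x8 ∧ 50 * H ≤ x8 := by
  have hxH : 50 * x ≤ H := by linarith
  have hH8 : 10 ^ 8 ≤ H := by linarith
  obtain ⟨a1, a2, a3, a5, a6, a7, a4⟩ := s.bounds hx hxH hH8 hwH
  have hk := s.key hx hxH hH8 hwH (t := x / 10 ^ 4) rfl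
  obtain ⟨w0, p2, p3, p4, p5, p6, p7, e2, e3, e4, e5, e6, e7⟩ := s
  have hH0 : 0 < H := by linarith
  have hx0 : 0 < x := by linarith
  obtain ⟨t, ht⟩ : ∃ t, t = x / 10 ^ 4 := ⟨_, rfl⟩
  rw [← ht] at hk
  have ht0 : 0 < t := by rw [ht]; positivity
  have ht1 : t ≤ 1 := by rw [ht]; linarith
  have hxt : x = 10 ^ 4 * t := by rw [ht]; ring
  -- lower bound for x7
  have c1 : t * H ≤ 8 / 5 * x7 := by
    have h1 : 20001 * (1 + t) / H ≤ 1 / 1000 * (1 + t) := by
      rw [div_le_iff₀ hH0]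
      have h01 : (20001 : ℝ) ≤ 1 / 1000 * H := by linarith
      have h02 := mul_le_mul_of_nonneg_left h01 (show (0 : ℝ) ≤ 1 + t by linarith)
      linarith
    have h2 : (t + 1 + 1 / t + 20001 * (1 + t) / H) * t ≤ 8 / 5 * (1 + t) := by
      have h3 : (t + 1 + 1 / t + 20001 * (1 + t) / H) * t ≤
          (t + 1 + 1 / t + 1 / 1000 * (1 + t)) * t := by
        apply mul_le_mul_of_nonneg_right _ ht0.le
        linarith
      have h4 : (t + 1 + 1 / t + 1 / 1000 * (1 + t)) * t = t ^ 2 + t + 1 +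
          1 / 1000 * (1 + t) * t := by field_simp
      have h5 : t * t ≤ t * 1 := mul_le_mul_of_nonneg_left ht1 ht0.le
      have h6 : 1 / 1000 * (1 + t) * t = 1 / 1000 * t + 1 / 1000 * (t * t) := by ring
      have h7 : t ^ 2 = t * t := sq t
      linarith
    have h6 : H * (1 + t) * t ≤ x7 * (8 / 5 * (1 + t)) := by
      calc H * (1 + t) * t ≤ x7 * (t + 1 + 1 / t + 20001 * (1 + t) / H) * t :=
            mul_le_mul_of_nonneg_right hk ht0.le
        _ = x7 * ((t + 1 + 1 / t + 20001 * (1 + t) / H) * t) := by ring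
        _ ≤ _ := mul_le_mul_of_nonneg_left h2 p7.le
    have h7 : t * H * (1 + t) ≤ 8 / 5 * x7 * (1 + t) := by linarith
    exact le_of_mul_le_mul_right h7 (by linarith)
  -- bounds for x5 and x6
  have hw : w ≤ x / 10 ^ 6 := by
    have h1 : w * 10 ^ 9 ≤ w * H := mul_le_mul_of_nonneg_left hH w0
    linarith
  have c2 : x5 ≤ t / 10 ^ 6 := by
    have h7 : (1 + x4) * (x / 100 + w) ≤ 2 * (x / 50) := by
      apply mul_le_mul <;> linarith
    have h8 : x5 * 10 ^ 9 ≤ x5 * H := mul_le_mul_of_nonneg_left hH p5.le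
    linarith
  have c3 : x6 ≤ 103 / 100 * t := by
    have h1 : 9880 ≤ x3 * x := by
      have h2 : x2 ≤ x3 * (1001 / 1000 * (H / 100)) := by
        have : x3 * (H / 100 + x) ≤ x3 * (1001 / 1000 * (H / 100)) := by
          apply mul_le_mul_of_nonneg_left _ p3.le
          linarith
        linarith
      have h3 : x2 * x ≤ x3 * (1001 / 1000 * (H / 100)) * x :=
        mul_le_mul_of_nonneg_right h2 hx0.le
      by_contra hlt
      push Not at hlt
      have h4 : x3 * x * H < 9880 * H := mul_lt_mul_of_pos_right hlt hH0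
      have h5 : x3 * (1001 / 1000 * (H / 100)) * x = 1001 / 100000 * (x3 * x * H) := by ring
      linarith
    have h9 : x6 * x3 ≤ 1001 / 1000 := by
      have := mul_pos p6 p4
      linarith
    have h10 : x6 * (x3 * x) ≤ 1001 / 1000 * x := by
      have := mul_le_mul_of_nonneg_right h9 hx0.le
      linarith
    have h11 : x6 * 9880 ≤ x6 * (x3 * x) := mul_le_mul_of_nonneg_left h1 p6.le
    linarith
  have c4 : x6 / 100 + x5 ≤ 104 / 10000 * t := by linarith
  have c5 : x7 ≤ x8 * (104 / 10000 * t) := by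
    have := mul_le_mul_of_nonneg_left c4 p8.le
    linarith
  refine ⟨?_, ?_, ?_⟩
  · have h1 : (1 : ℝ) / 10 ^ 4 ≤ t := by rw [ht]; linarith
    have h2 : 1 / 10 ^ 4 * H ≤ t * H := mul_le_mul_of_nonneg_right h1 hH0.le
    linarith
  · have : x8 * (104 / 10000 * t) ≤ x8 * (104 / 10000) := by
      apply mul_le_mul_of_nonneg_left _ p8.le
      linarith
    linarith
  · have h1 : t * H ≤ (8 / 5 * x8 * (104 / 10000)) * t := by linarith
    have h2 : H ≤ 8 / 5 * x8 * (104 / 10000) := by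
      have h3 : H * t ≤ (8 / 5 * x8 * (104 / 10000)) * t := by linarith
      exact le_of_mul_le_mul_right h3 ht0
    linarith

/-! ### the orbit -/

section orbit

variable {x : ℕ → ℝ}

theorem sol_nonneg (h : IsSol 1 (1 / 100) x) : ∀ n, 0 ≤ x n := by
  have key : ∀ n, 0 ≤ x n ∧ 0 ≤ x (n + 1) ∧ 0 ≤ x (n + 2) := by
    intro n
    induction n with
    | zero => exact ⟨h.1, h.2.1, h.2.2.1⟩
    | succ n ih =>
      refine ⟨ih.2.1, ih.2.2, ?_⟩
      have h1 := h.2.2.2.2 n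
      rw [show n + 1 + 2 = n + 3 by ring, h1]
      have h2 := h.2.2.2.1 n
      have h3 := ih.2.2
      positivity
  exact fun n => (key n).1

theorem sol_pos (h : IsSol 1 (1 / 100) x) (n : ℕ) : 0 < x (n + 3) := by
  rw [h.2.2.2.2 n]
  have h2 := h.2.2.2.1 n
  have h3 := sol_nonneg h (n + 2)
  positivity

theorem sol_eq (h : IsSol 1 (1 / 100) x) (n : ℕ) :
    x (n + 3) * (x (n + 1) / 100 + x n) = 1 + x (n + 2) := by
  rw [h.2.2.2.2 n]
  have h2 := h.2.2.2.1 n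
  have h3 : x (n + 1) / 100 + x n = 1 / 100 * x (n + 1) + x n := by ring
  rw [h3, div_mul_cancel₀ _ h2.ne']

theorem six_of (h : IsSol 1 (1 / 100) x) (n : ℕ) :
    Six (x n) (x (n + 1)) (x (n + 2)) (x (n + 3)) (x (n + 4)) (x (n + 5)) (x (n + 6))
      (x (n + 7)) (x (n + 8)) :=
  ⟨sol_nonneg h n, sol_pos h n, sol_pos h (n + 1), sol_pos h (n + 2), sol_pos h (n + 3),
    sol_pos h (n + 4), sol_pos h (n + 5), sol_eq h n, sol_eq h (n + 1), sol_eq h (n + 2),
    sol_eq h (n + 3), sol_eq h (n + 4), sol_eq h (n + 5)⟩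

/-- automatically valid relation between three consecutive terms -/
theorem sol_rel (h : IsSol 1 (1 / 100) x) (n : ℕ) :
    x (n + 1) * x (n + 3) ≤ 100 * (1 + x (n + 2)) := by
  have h1 := sol_eq h n
  have h2 := sol_nonneg h n
  have h3 := sol_pos h n
  have h4 := mul_nonneg h3.le h2
  linarith

/-- first phase of a frame of size `M` -/
def Frame (x : ℕ → ℝ) (M : ℝ) (n : ℕ) : Prop :=
  10 ^ 4 ≤ x (n + 1) ∧ 50 * x (n + 1) ≤ x (n + 2) ∧ x n * x (n + 2) ≤ 100 * (1 + x (n + 1)) ∧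
    M ≤ x (n + 2) * (1 + 100 / x (n + 1))

/-- second phase of a frame of size `M` -/
def Frame2 (x : ℕ → ℝ) (M : ℝ) (n : ℕ) : Prop :=
  1 ≤ x (n + 1) ∧ x (n + 1) ≤ 10 ^ 4 ∧ x n * x (n + 2) ≤ 100 * (1 + x (n + 1)) ∧
    M ≤ 3 * x (n + 2)

theorem frame_step (h : IsSol 1 (1 / 100) x) {M : ℝ} (hM : 10 ^ 10 ≤ M) {n : ℕ}
    (hf : Frame x M n) :
    (Frame x M (n + 6) ∧ x (n + 7) ≤ x (n + 1) / 2) ∨ Frame2 x M (n + 6) := by
  obtain ⟨f1, f2, f3, f4⟩ := hf
  have hx0 : 0 < x (n + 1) := by linarith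
  have h0 : 0 < x (n + 2) := by linarith
  have h1 : 100 / x (n + 1) ≤ 1 / 100 := by
    rw [div_le_div_iff₀ hx0 (by norm_num)]
    linarith
  have hH : 10 ^ 9 ≤ x (n + 2) := by
    have : x (n + 2) * (1 + 100 / x (n + 1)) ≤ x (n + 2) * (1 + 1 / 100) :=
      mul_le_mul_of_nonneg_left (by linarith) h0.le
    linarith
  have s := six_of h n
  obtain ⟨g1, g2, g3⟩ := s.phaseA f1 f2 (by linarith) f3
  have p8 : 0 < x (n + 8) := s.p7
  have p7 : 0 < x (n + 7) := s.p6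
  have hrel := sol_rel h (n + 5)
  have e : (10 : ℝ) ^ 4 / x (n + 1) ≤ 1 := by
    rw [div_le_one hx0]; exact f1
  have g4 : x (n + 2) ≤ 2 * x (n + 8) := by
    have : x (n + 8) * (1 + 10 ^ 4 / x (n + 1)) ≤ x (n + 8) * 2 :=
      mul_le_mul_of_nonneg_left (by linarith) p8.le
    linarith
  rcases le_or_gt (10 ^ 4) (x (n + 7)) with hbig | hsmall
  · left
    refine ⟨⟨hbig, ?_, hrel, ?_⟩, by linarith⟩
    · change 50 * x (n + 7) ≤ x (n + 8)
      linarith
    · change M ≤ x (n + 8) * (1 + 100 / x (n + 7))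
      have h2 : 100000 / x (n + 1) ≤ 100 / x (n + 7) := by
        rw [div_le_div_iff₀ hx0 p7]
        linarith
      have h3 : x (n + 2) * (1 + 100 / x (n + 1)) ≤
          x (n + 8) * (1 + 10 ^ 4 / x (n + 1)) * (1 + 100 / x (n + 1)) := by
        apply mul_le_mul_of_nonneg_right g3
        positivity
      obtain ⟨r, hr⟩ : ∃ r, r = 100 / x (n + 1) := ⟨_, rfl⟩
      have hr0 : 0 < r := by rw [hr]; positivity
      have e1 : (10 : ℝ) ^ 4 / x (n + 1) = 100 * r := by rw [hr]; ring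
      have e2 : (100000 : ℝ) / x (n + 1) = 1000 * r := by rw [hr]; ring
      rw [e1, ← hr] at h3
      rw [← hr] at h1 f4
      rw [e2] at h2
      have h4 : (1 + 100 * r) * (1 + r) ≤ 1 + 1000 * r := by nlinarith
      have h5 : x (n + 8) * ((1 + 100 * r) * (1 + r)) ≤ x (n + 8) * (1 + 100 / x (n + 7)) := by
        apply mul_le_mul_of_nonneg_left _ p8.le
        linarith
      linarith
  · right
    refine ⟨g1, hsmall.le, hrel, ?_⟩
    change M ≤ 3 * x (n + 8)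
    have : x (n + 2) * (1 + 100 / x (n + 1)) ≤ x (n + 2) * (1 + 1 / 100) :=
      mul_le_mul_of_nonneg_left (by linarith) h0.le
    linarith

theorem frame2_step (h : IsSol 1 (1 / 100) x) {M : ℝ} (hM : 10 ^ 10 ≤ M) {n : ℕ}
    (hf : Frame2 x M n) : Frame x (10 * M) (n + 7) := by
  obtain ⟨f1, f2, f3, f4⟩ := hf
  have s := six_of h n
  have hH : 10 ^ 9 ≤ x (n + 2) := by linarith
  obtain ⟨g1, g2, g3⟩ := s.phaseB f1 f2 hH f3 (sol_pos h (n + 6)) (sol_eq h (n + 6))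
  refine ⟨g1, g2, sol_rel h (n + 6), ?_⟩
  change 10 * M ≤ x (n + 9) * (1 + 100 / x (n + 8))
  have p9 : 0 < x (n + 9) := sol_pos h (n + 6)
  have p8 : 0 < x (n + 8) := sol_pos h (n + 5)
  have h1 : 0 < x (n + 9) * (100 / x (n + 8)) := by positivity
  have h2 : 50 * x (n + 2) ≤ x (n + 9) := g3
  linarith

theorem reach_frame2 (h : IsSol 1 (1 / 100) x) {M : ℝ} (hM : 10 ^ 10 ≤ M) :
    ∀ (N n : ℕ), Frame x M n → x (n + 1) ≤ 10 ^ 4 * 2 ^ N → ∃ n', Frame2 x M n' := by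
  intro N
  induction N with
  | zero =>
    intro n hf hle
    rcases frame_step h hM hf with ⟨hf', hle'⟩ | hf2
    · exfalso
      have h1 : 10 ^ 4 ≤ x (n + 7) := hf'.1
      have h2 := hf.1
      rw [pow_zero, mul_one] at hle
      linarith
    · exact ⟨_, hf2⟩
  | succ N ih =>
    intro n hf hle
    rcases frame_step h hM hf with ⟨hf', hle'⟩ | hf2
    · apply ih (n + 6) hf'
      change x (n + 7) ≤ _
      have h2 : (2 : ℝ) ^ (N + 1) = 2 ^ N * 2 := pow_succ _ _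
      rw [h2] at hle
      linarith
    · exact ⟨_, hf2⟩

theorem next_frame (h : IsSol 1 (1 / 100) x) {M : ℝ} (hM : 10 ^ 10 ≤ M) {n : ℕ}
    (hf : Frame x M n) : ∃ n', Frame x (10 * M) n' := by
  obtain ⟨N, hN⟩ := pow_unbounded_of_one_lt (x (n + 1)) (show (1 : ℝ) < 2 by norm_num)
  have h1 : x (n + 1) ≤ 10 ^ 4 * 2 ^ N := by
    have : (0 : ℝ) < 2 ^ N := by positivity
    linarith
  obtain ⟨n', hn'⟩ := reach_frame2 h hM N n hf h1
  exact ⟨_, frame2_step h hM hn'⟩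

theorem unbounded_of_frame (h : IsSol 1 (1 / 100) x) {n : ℕ} (hf : Frame x (10 ^ 10) n) :
    ¬ BddAbove (Set.range x) := by
  rintro ⟨K, hK⟩
  have key : ∀ j : ℕ, ∃ n', Frame x (10 ^ 10 * 10 ^ j) n' := by
    intro j
    induction j with
    | zero => exact ⟨n, by simpa using hf⟩
    | succ j ih =>
      obtain ⟨n', hn'⟩ := ih
      have h1 : (10 : ℝ) ^ 10 ≤ 10 ^ 10 * 10 ^ j := by
        have : (1 : ℝ) ≤ 10 ^ j := one_le_pow₀ (by norm_num)
        linarith
      obtain ⟨n'', hn''⟩ := next_frame h h1 hn'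
      refine ⟨n'', ?_⟩
      rw [show (10 : ℝ) ^ 10 * 10 ^ (j + 1) = 10 * (10 ^ 10 * 10 ^ j) by ring]
      exact hn''
  obtain ⟨j, hj⟩ := pow_unbounded_of_one_lt K (show (1 : ℝ) < 10 by norm_num)
  obtain ⟨n', f1, f2, f3, f4⟩ := key j
  have hx0 : 0 < x (n' + 1) := by linarith
  have h1 : 100 / x (n' + 1) ≤ 1 := by
    rw [div_le_one hx0]; linarith
  have h0 : 0 < x (n' + 2) := by linarith
  have h2 : x (n' + 2) * (1 + 100 / x (n' + 1)) ≤ x (n' + 2) * 2 :=
    mul_le_mul_of_nonneg_left (by linarith) h0.le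
  have h3 : x (n' + 2) ≤ K := hK ⟨n' + 2, rfl⟩
  have h4 : (0 : ℝ) < 10 ^ j := by positivity
  linarith

end orbit

/-- existence of solutions with given nonnegative initial values -/
theorem exists_sol (a b c : ℝ) (ha : 0 < a) (hb : 0 < b) (hc : 0 < c) :
    ∃ x : ℕ → ℝ, IsSol 1 (1 / 100) x ∧ x 0 = a ∧ x 1 = b ∧ x 2 = c := by
  let p : ℕ → ℝ × ℝ × ℝ := fun n => Nat.rec (a, b, c)
    (fun _ q => (q.2.1, q.2.2, (1 + q.2.2) / (1 / 100 * q.2.1 + q.1))) n
  have hp : ∀ n, 0 < (p n).1 ∧ 0 < (p n).2.1 ∧ 0 < (p n).2.2 := by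
    intro n
    induction n with
    | zero => exact ⟨ha, hb, hc⟩
    | succ n ih =>
      obtain ⟨h1, h2, h3⟩ := ih
      refine ⟨h2, h3, ?_⟩
      change 0 < (1 + (p n).2.2) / (1 / 100 * (p n).2.1 + (p n).1)
      positivity
  refine ⟨fun n => (p n).1, ⟨ha.le, hb.le, hc.le, fun n => ?_, fun n => rfl⟩, rfl, rfl, rfl⟩
  change 0 < 1 / 100 * (p n).2.1 + (p n).1
  have := hp n
  linarith [this.1, this.2.1]

/-- Unbounded solutions exist: for `α = 1`, `C = 1/100` every solution whose initial values lie in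
an explicit nonempty open set is unbounded. -/
theorem result :
    (∃ α C : ℝ, 0 < α ∧ 0 < C ∧ ∃ x : ℕ → ℝ, IsSol α C x ∧ ¬ BddAbove (Set.range x)) ∧
    (∀ x : ℕ → ℝ, IsSol 1 (1 / 100) x → 10 ^ 4 < x 1 → 50 * x 1 < x 2 →
      x 0 * x 2 < 100 * (1 + x 1) → 10 ^ 10 < x 2 → ¬ BddAbove (Set.range x)) := by
  have main : ∀ x : ℕ → ℝ, IsSol 1 (1 / 100) x → 10 ^ 4 < x 1 → 50 * x 1 < x 2 →
      x 0 * x 2 < 100 * (1 + x 1) → 10 ^ 10 < x 2 → ¬ BddAbove (Set.range x) := by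
    intro x hx h2 h3 h4 h5
    refine unbounded_of_frame hx (n := 0) ⟨h2.le, h3.le, h4.le, ?_⟩
    have h6 : 0 < x (0 + 2) * (100 / x (0 + 1)) := by
      have : 0 < x (0 + 1) := by change 0 < x 1; linarith
      have : 0 < x (0 + 2) := by change 0 < x 2; linarith
      positivity
    change 10 ^ 10 ≤ x 2 * (1 + 100 / x 1)
    change 0 < x 2 * (100 / x 1) at h6
    linarith
  refine ⟨⟨1, 1 / 100, by norm_num, by norm_num, ?_⟩, main⟩
  obtain ⟨x, hx, h0, h1, h2⟩ := exists_sol (1 / 10 ^ 11) (10 ^ 5) (10 ^ 11) (by norm_num)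
    (by norm_num) (by norm_num)
  refine ⟨x, hx, main x hx ?_ ?_ ?_ ?_⟩
  · rw [h1]; norm_num
  · rw [h1, h2]; norm_num
  · rw [h0, h1, h2]; norm_num
  · rw [h2]; norm_num

end Pool.Agent.Results.MP_db9acb_an.UnboundedExist
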